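import Mathlib
import Pool.Agent.R603.CCGroup.Square

/-!
In ZFC there is a countably compact (Tikhonov, Boolean) topological group whose square is not
countably compact.

Outline.

1. `CCGroup.H`: the free Boolean group on an index set `X` which is an inductive type closed under
   countable sequences (so of cardinality at most the continuum), with the topology generated by
   all homomorphisms to `ZMod 2` that respect the assigned limits of all linearly independent
   sequences along the ultrafilters attached to an almost disjoint family (after Hrušák, van Mill,
   Ramos-García and Shelah). It is countably compact and has no nontrivial convergent sequences.
2. If `H × H` is not countably compact, take `G = H`. Otherwise `K = H × H` is a countably compact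
   group without nontrivial convergent sequences, with a continuous automorphism `phi` such that
   `phi ^ 2 = 1 + phi`. In `K` every infinite set has continuum many accumulation points, so
   accumulation points of all infinite countable subsets can be chosen independently over `GF(4)`
   modulo a countable infinite `phi`-invariant subgroup `E`; they generate with `E` a countably
   compact group `G` with `G ∩ phi⁻¹ G = E`. The graph of `phi` meets `G × G` in a closed copy of
   `E`, which is not countably compact.
-/

namespace Pool.Agent.Results.MP_672973_lc.NonCcSquare

open Pool.Agent.R603.CCGroup Topology

/-- A Tikhonov topological abelian group from its Hausdorff property. -/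
theorem t35 (G : Type) [AddCommGroup G] [TopologicalSpace G] [IsTopologicalAddGroup G]
    [T2Space G] : T35Space G := by
  let _ : UniformSpace G := IsTopologicalAddGroup.rightUniformSpace G
  have h : CompletelyRegularSpace G := inferInstance
  exact { toT0Space := inferInstance, toCompletelyRegularSpace := h }

/-- ZFC proves that there is a countably compact Tikhonov topological group (even a Boolean one)
whose square is not countably compact. -/
theorem result : ∃ (G : Type) (_ : AddCommGroup G) (_ : TopologicalSpace G),
    IsTopologicalAddGroup G ∧ T35Space G ∧ (∀ x : G, x + x = 0) ∧
      CountablyCompactSpace G ∧ ¬ CountablyCompactSpace (G × G) := by
  by_cases h : CountablyCompactSpace (H × H)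
  · obtain ⟨G, h1, h2⟩ := main
    refine ⟨G, inferInstance, inferInstance, ?_, t35 _, ?_, h1, h2⟩
    · exact inferInstanceAs (IsTopologicalAddGroup G.toAddSubgroup)
    · intro x
      apply Subtype.ext
      exact two_K _
  · exact ⟨H, inferInstance, inferInstance, inferInstance, t35 _, two_H, inferInstance, h⟩

end Pool.Agent.Results.MP_672973_lc.NonCcSquare
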